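import Pool.Agent.T2H08.KC.Fin
import Pool.Agent.T2H08.KC.CPY
import Pool.Agent.T2H08.KC.ORD
import Pool.Agent.T2H08.KC.LNK
import Pool.Agent.T2H08.KC.RAT
import Pool.Agent.T2H08.KC.UB
import Pool.Agent.T2H08.KC.PRD
import Pool.Agent.T2H08.KC.TUR
import Pool.Agent.T2H08.KC.UNI

/-!
# Copies of cliques for a fixed number of `u`-cliques, bounded degree and bounded clique number

`ex u Δ ω H p` is `ex_u(p, H, {K_{1,Δ+1}, K_{ω+1}})`: the largest number of copies of `H` in a finite graph with maximum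
degree at most `Δ` and clique number at most `ω` that has exactly `p` cliques with `u` vertices.

For `H = K_t`, `2 ≤ u ≤ t ≤ ω`, the constant `c_u(K_t, Δ, ω) = lim ex u Δ ω K_t p / p` is determined: with
`F = C(ω,t)/C(ω,u)`

* every such graph satisfies `N(K_t, G) ≤ F (Δ/(ω-1))^(t-u) N(K_u, G)`;
* `F ⌊Δ/(ω-1)⌋^(t-u) ≤ c_u(K_t, Δ, ω) ≤ F (Δ/(ω-1))^(t-u)`, so `c_u(K_t, (ω-1) q, ω) = F q^(t-u)`;
* `c_u(K_t, Δ, ω) ~ F (Δ/(ω-1))^(t-u)` as `Δ → ∞`: the lower bound of the problem (the Turan graph with `ω` parts) is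
  asymptotically sharp.

Proof: the Moon-Moser inequality gives the upper bound `(r-j) m / (r (j+1))` for the ratio of the numbers of `(j+1)`-cliques
and `j`-cliques of a graph on `m` vertices without `K_{r+1}` (downward induction on `j`); it is applied to the neighbourhoods of
the vertices, `m ≤ Δ`, `r = ω - 1`.
-/

set_option autoImplicit false

namespace Pool.Agent.Results.MP_5cc280_co.Cliques

open Filter Topology Pool.Agent.T2H08.KC

theorem result (u t ω : ℕ) (hu : 2 ≤ u) (hut : u ≤ t) (htω : t ≤ ω) :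
    (∀ (Δ n : ℕ) (G : SimpleGraph (Fin n)), Adm Δ ω G →
      (num (⊤ : SimpleGraph (Fin t)) G : ℝ) ≤
        ((ω.choose t : ℝ) / (ω.choose u : ℝ)) * ((Δ : ℝ) / ((ω : ℝ) - 1)) ^ (t - u) *
          (num (⊤ : SimpleGraph (Fin u)) G : ℝ)) ∧
    ∃ c : ℕ → ℝ,
      (∀ Δ, ω ≤ Δ + 1 →
        Tendsto (fun p : ℕ => (ex u Δ ω (⊤ : SimpleGraph (Fin t)) p : ℝ) / p) atTop (𝓝 (c Δ))) ∧
      (∀ Δ, ω ≤ Δ + 1 →
        ((ω.choose t : ℝ) / (ω.choose u : ℝ)) * ((Δ / (ω - 1) : ℕ) : ℝ) ^ (t - u) ≤ c Δ ∧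
        c Δ ≤ ((ω.choose t : ℝ) / (ω.choose u : ℝ)) * ((Δ : ℝ) / ((ω : ℝ) - 1)) ^ (t - u)) ∧
      (∀ q : ℕ, 1 ≤ q → c ((ω - 1) * q) = ((ω.choose t : ℝ) / (ω.choose u : ℝ)) * (q : ℝ) ^ (t - u)) ∧
      Tendsto (fun Δ : ℕ => c Δ /
        (((ω.choose t : ℝ) / (ω.choose u : ℝ)) * ((Δ : ℝ) / ((ω : ℝ) - 1)) ^ (t - u))) atTop (𝓝 1) :=
  final pCPY (pPRD (pUB pORD pLNK pRAT)) pTUR pUNI u t ω hu hut htω

end Pool.Agent.Results.MP_5cc280_co.Cliques
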