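import Pool.Agent.T2H08.KC.Fin2
import Pool.Agent.T2H08.KC.CPY
import Pool.Agent.T2H08.KC.TUR
import Pool.Agent.T2H08.KC.CPB
import Pool.Agent.T2H08.KC.CONN
import Pool.Agent.T2H08.KC.DBL
import Pool.Agent.T2H08.KC.UBB
import Pool.Agent.T2H08.KC.MPT
import Pool.Agent.T2H08.KC.UN2
import Pool.Agent.T2H08.KC.ATT
import Pool.Agent.T2H08.KC.ASB
import Pool.Agent.T2H08.KC.K1

/-!
# All graphs `H` when `ω = u + 1`

If `ω = u + 1`, the graphs `H` with at least `u` dominating vertices and clique number at most `ω` are `K_u`, `K_{u+1}` and the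
joins `joinKI u s` of `K_u` with `s ≥ 2` independent vertices. For these, `1 ≤ u ≤ Δ`, the constant
`c_u(H, Δ, u+1) = lim ex_u(p, H, {K_{1,Δ+1}, K_{u+2}}) / p` is determined exactly: it is the maximum `mx u s Δ` of
`(∑ C(x_i, s)/x_i) / (∑ 1/x_i)` over the vectors `x_0, …, x_u` of positive integers all of whose sums with one term left out are
at most `Δ`, that is, the number of copies of `H` per `u`-clique in the best complete `(u+1)`-partite graph with degrees at
most `Δ` (in general with unequal parts). As `Δ → ∞` it is asymptotic to `kap1 u s Δ^s/s!`, where `kap1 u s` is the supremum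
over `0 < α ≤ 1/u` of `rat1 u s α = (u α^(s-1) + β^(s-1)) / (u/α + 1/β)`, `β = 1 - (u-1) α`: `u` parts of size `α Δ` and one of size
`β Δ`. Equal parts, `α = 1/u` (the lower bound of the problem), give `u^(-s) Δ^s/s!`, which is smaller for `u ≥ 2` and all large `s`.

Proof: for a `(u+1)`-clique `K` of a graph without `K_{u+2}` and `w ∈ K` let `x_w` be the number of common neighbours of
`K \ {w}`; these sets of common neighbours are disjoint, so that `∑_{w ≠ v} x_w ≤ deg v ≤ Δ` for `v ∈ K`; the numbers of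
`u`-cliques and of copies of `H` are written as sums over the pairs `(K, w)`. The reduction to one parameter uses that
`y^(s-1) - R/y` is first concave, then convex.
-/

set_option autoImplicit false

namespace Pool.Agent.Results.MP_5cc280_co.OmegaSucc

open Filter Topology Pool.Agent.T2H08.KC

theorem result (u : ℕ) (hu : 1 ≤ u) :
    (∀ s : ℕ, 2 ≤ s →
      (∀ Δ : ℕ, u ≤ Δ →
        Tendsto (fun p : ℕ => (ex u Δ (u + 1) (joinKI u s) p : ℝ) / p) atTop (𝓝 (mx u s Δ)) ∧
        (∃ x, Feas u Δ x ∧ rat u s x = mx u s Δ) ∧ ∀ x, Feas u Δ x → rat u s x ≤ mx u s Δ) ∧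
      0 < kap1 u s ∧
      Tendsto (fun Δ : ℕ => mx u s Δ / (kap1 u s * (Δ : ℝ) ^ s / (s.factorial : ℝ))) atTop (𝓝 1)) ∧
    (2 ≤ u → ∀ᶠ s : ℕ in atTop, (1 / (u : ℝ)) ^ s < kap1 u s) :=
  ⟨fun s hs => ⟨fun Δ hΔ => ⟨final2 pCPY pTUR pCPB (pUBB pCON pDBL) pMPT pUN2 pATT u s hu hs Δ hΔ,
    pATT u s Δ hu hΔ⟩, asymp pASB u s hu hs⟩, kap1_gt u⟩

end Pool.Agent.Results.MP_5cc280_co.OmegaSucc
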